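import Pool.Agent.V11233.MT.Def

set_option autoImplicit false

namespace Pool.Agent.V11233.MT

variable {Δ : Type}

theorem mod_pow_div (p k l i : ℕ) : i % p ^ (k + l) / p ^ l = i / p ^ l % p ^ k := by
  rw [pow_add, mul_comm, Nat.mod_mul_right_div_self]

theorem blk_add (p q : ℕ) (M : Δ → ℕ → ℕ → Δ) : ∀ (k l : ℕ) (δ : Δ) (i j : ℕ),
    i < p ^ (k + l) → j < q ^ (k + l) →
    blk p q M (k + l) δ i j =
      blk p q M l (blk p q M k δ (i / p ^ l) (j / q ^ l)) (i % p ^ l) (j % q ^ l) := by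
  intro k
  induction k with
  | zero =>
    intro l δ i j hi hj
    rw [Nat.zero_add] at hi hj ⊢
    rw [Nat.mod_eq_of_lt hi, Nat.mod_eq_of_lt hj]
    rfl
  | succ k ih =>
    intro l δ i j hi hj
    have hp : 0 < p ^ (k + l) := by
      rcases Nat.eq_zero_or_pos p with rfl | hp
      · rw [show k + 1 + l = (k + l) + 1 by omega, pow_succ, mul_zero] at hi
        omega
      · exact Nat.pow_pos hp
    have hq : 0 < q ^ (k + l) := by
      rcases Nat.eq_zero_or_pos q with rfl | hq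
      · rw [show k + 1 + l = (k + l) + 1 by omega, pow_succ, mul_zero] at hj
        omega
      · exact Nat.pow_pos hq
    have h1 : blk p q M (k + 1 + l) δ i j =
        blk p q M (k + l) (M δ (i / p ^ (k + l)) (j / q ^ (k + l))) (i % p ^ (k + l))
          (j % q ^ (k + l)) := by
      rw [show k + 1 + l = (k + l) + 1 by omega]
      rfl
    rw [h1, ih l _ _ _ (Nat.mod_lt _ hp) (Nat.mod_lt _ hq)]
    have e1 : i % p ^ (k + l) % p ^ l = i % p ^ l :=
      Nat.mod_mod_of_dvd _ (pow_dvd_pow _ (by omega))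
    have e2 : j % q ^ (k + l) % q ^ l = j % q ^ l :=
      Nat.mod_mod_of_dvd _ (pow_dvd_pow _ (by omega))
    rw [e1, e2, mod_pow_div, mod_pow_div]
    show _ = blk p q M l (blk p q M k (M δ (i / p ^ l / p ^ k) (j / q ^ l / q ^ k))
      (i / p ^ l % p ^ k) (j / q ^ l % q ^ k)) _ _
    rw [Nat.div_div_eq_div_mul, Nat.div_div_eq_div_mul, ← pow_add, ← pow_add, Nat.add_comm l k]

theorem rec_of_modular {p q : ℕ} {δ₀ : Δ} {M : Δ → ℕ → ℕ → Δ}
    {T : ℕ → ℕ → Δ} (h : ∀ i j : ℕ, ∃ K : ℕ, ∀ k : ℕ, K ≤ k →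
      i < p ^ k ∧ j < q ^ k ∧ T i j = blk p q M k δ₀ i j) (K : ℕ) (i j : ℕ) :
    T i j = blk p q M K (T (i / p ^ K) (j / q ^ K)) (i % p ^ K) (j % q ^ K) := by
  obtain ⟨K1, h1⟩ := h i j
  obtain ⟨K2, h2⟩ := h (i / p ^ K) (j / q ^ K)
  obtain ⟨a1, a2, a3⟩ := h1 (max K1 K2 + K) (by omega)
  obtain ⟨b1, b2, b3⟩ := h2 (max K1 K2) (by omega)
  rw [a3, blk_add p q M _ K δ₀ i j a1 a2, b3]

theorem modular_of_rec {P Q : ℕ} (hP : 2 ≤ P) (hQ : 2 ≤ Q) {M : Δ → ℕ → ℕ → Δ}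
    {T : ℕ → ℕ → Δ} (h : ∀ i j, T i j = M (T (i / P) (j / Q)) (i % P) (j % Q)) :
    M (T 0 0) 0 0 = T 0 0 ∧ ∀ i j : ℕ, ∃ K : ℕ, ∀ k : ℕ, K ≤ k →
      i < P ^ k ∧ j < Q ^ k ∧ T i j = blk P Q M k (T 0 0) i j := by
  have key : ∀ k i j, T i j = blk P Q M k (T (i / P ^ k) (j / Q ^ k)) (i % P ^ k) (j % Q ^ k) := by
    intro k
    induction k with
    | zero =>
      intro i j
      simp [blk]
    | succ k ih =>
      intro i j
      rw [ih i j, h (i / P ^ k) (j / Q ^ k)]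
      show _ = blk P Q M k (M _ (i % P ^ (k + 1) / P ^ k) (j % Q ^ (k + 1) / Q ^ k))
        (i % P ^ (k + 1) % P ^ k) (j % Q ^ (k + 1) % Q ^ k)
      have e1 : i % P ^ (k + 1) % P ^ k = i % P ^ k :=
        Nat.mod_mod_of_dvd _ (pow_dvd_pow _ (by omega))
      have e2 : j % Q ^ (k + 1) % Q ^ k = j % Q ^ k :=
        Nat.mod_mod_of_dvd _ (pow_dvd_pow _ (by omega))
      have e3 : i % P ^ (k + 1) / P ^ k = i / P ^ k % P := by
        have := mod_pow_div P 1 k i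
        rwa [Nat.add_comm 1 k, pow_one] at this
      have e4 : j % Q ^ (k + 1) / Q ^ k = j / Q ^ k % Q := by
        have := mod_pow_div Q 1 k j
        rwa [Nat.add_comm 1 k, pow_one] at this
      rw [e1, e2, e3, e4, Nat.div_div_eq_div_mul, Nat.div_div_eq_div_mul, ← pow_succ, ← pow_succ]
  constructor
  · have := h 0 0
    simpa using this.symm
  · intro i j
    refine ⟨max i j, fun k hk => ?_⟩
    have hi : i < P ^ k := lt_of_le_of_lt (by omega : i ≤ k) (Nat.lt_pow_self (by omega))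
    have hj : j < Q ^ k := lt_of_le_of_lt (by omega : j ≤ k) (Nat.lt_pow_self (by omega))
    refine ⟨hi, hj, ?_⟩
    have := key k i j
    rwa [Nat.div_eq_of_lt hi, Nat.div_eq_of_lt hj, Nat.mod_eq_of_lt hi, Nat.mod_eq_of_lt hj] at this

end Pool.Agent.V11233.MT
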