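import Pool.Agent.V11233.MT.Def

set_option autoImplicit false

namespace Pool.Agent.V11233.MT

variable {S : Type}

theorem out_congr (A : RTTA S) {w w' : List S} : ∀ (h i j i' j' : ℕ),
    (∀ t ≤ h, w[i + t]? = w'[i' + t]?) →
    (∀ a b, a + b ≤ h → A.T (i + a) (j + b) = A.T (i' + a) (j' + b)) →
    A.out w h i j = A.out w' h i' j' := by
  intro h
  induction h with
  | zero =>
    intro i j i' j' h1 h2
    have e1 := h1 0 le_rfl
    have e2 := h2 0 0 le_rfl
    simp only [Nat.add_zero] at e1 e2
    simp only [RTTA.out]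
    rw [e1, e2]
  | succ h ih =>
    intro i j i' j' h1 h2
    have e2 := h2 0 0 (by omega)
    simp only [Nat.add_zero] at e2
    have e3 : A.out w h i (j + 1) = A.out w' h i' (j' + 1) := by
      refine ih _ _ _ _ (fun t ht => h1 t (by omega)) (fun a b hab => ?_)
      have := h2 a (b + 1) (by omega)
      rwa [show j + 1 + b = j + (b + 1) by omega, show j' + 1 + b = j' + (b + 1) by omega]
    have e4 : A.out w h (i + 1) j = A.out w' h (i' + 1) j' := by
      refine ih _ _ _ _ (fun t ht => ?_) (fun a b hab => ?_)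
      · have := h1 (t + 1) (by omega)
        rwa [show i + 1 + t = i + (t + 1) by omega, show i' + 1 + t = i' + (t + 1) by omega]
      · have := h2 (a + 1) b (by omega)
        rwa [show i + 1 + a = i + (a + 1) by omega, show i' + 1 + a = i' + (a + 1) by omega]
    simp only [RTTA.out]
    rw [e2, e3, e4]

/-- the states of the simulating automaton -/
abbrev St (A : RTTA S) (D : ℕ) : Type :=
  Fin (D + 1) × (Fin D → Option S) × Option A.Γ × (Fin (D + 1) → Fin (D + 1) → Bool)

open Classical in
/-- what the node `(i,j)` knows -/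
noncomputable def V (A : RTTA S) (β : ℕ → ℕ → Bool) (D : ℕ) (w : List S) (h i j : ℕ) : St A D :=
  (⟨min h D, by omega⟩,
   fun t => if h < D ∧ (t : ℕ) ≤ h then w[i + (t : ℕ)]? else none,
   if D ≤ h then some (A.out w h i j) else none,
   fun a b => if (a : ℕ) + (b : ℕ) ≤ min h D then β (i + a) (j + b) else false)

variable {A : RTTA S} {β : ℕ → ℕ → Bool} {D : ℕ}

theorem V_eq {w w' : List S} {h i j h' i' j' : ℕ}
    (e : V A β D w h i j = V A β D w' h' i' j') :
    min h D = min h' D ∧ (h < D → ∀ t ≤ h, w[i + t]? = w'[i' + t]?) ∧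
      (D ≤ h → A.out w h i j = A.out w' h' i' j') ∧
      (∀ a b, a + b ≤ min h D → β (i + a) (j + b) = β (i' + a) (j' + b)) := by
  unfold V at e
  rw [Prod.mk.injEq, Prod.mk.injEq, Prod.mk.injEq] at e
  obtain ⟨e1, e2, e3, e4⟩ := e
  have e1' : min h D = min h' D := by simpa using e1
  refine ⟨e1', ?_, ?_, ?_⟩
  · intro hD t ht
    have := congrFun e2 ⟨t, by omega⟩
    simp only at this
    have hh : h' = h := by omega
    rw [if_pos ⟨hD, ht⟩, if_pos ⟨by omega, by omega⟩] at this
    exact this
  · intro hD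
    rw [if_pos hD, if_pos (by omega)] at e3
    simpa using e3
  · intro a b hab
    have := congrFun (congrFun e4 ⟨a, by omega⟩) ⟨b, by omega⟩
    simp only at this
    rw [if_pos hab, if_pos (by omega)] at this
    exact this

theorem V_mk {w w' : List S} {h i j h' i' j' : ℕ} (h1 : min h D = min h' D)
    (h2 : h < D → ∀ t ≤ h, w[i + t]? = w'[i' + t]?)
    (h3 : D ≤ h → A.out w h i j = A.out w' h' i' j')
    (h4 : ∀ a b, a + b ≤ min h D → β (i + a) (j + b) = β (i' + a) (j' + b)) :
    V A β D w h i j = V A β D w' h' i' j' := by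
  unfold V
  rw [Prod.mk.injEq, Prod.mk.injEq, Prod.mk.injEq]
  refine ⟨by simpa using h1, ?_, ?_, ?_⟩
  · funext t
    by_cases hc : h < D ∧ (t : ℕ) ≤ h
    · rw [if_pos hc, if_pos ⟨by omega, by omega⟩]
      exact h2 hc.1 t hc.2
    · rw [if_neg hc, if_neg (fun hc' => hc ⟨by omega, by omega⟩)]
  · by_cases hc : D ≤ h
    · rw [if_pos hc, if_pos (by omega), h3 hc]
    · rw [if_neg hc, if_neg (by omega)]
  · funext a b
    by_cases hc : (a : ℕ) + (b : ℕ) ≤ min h D
    · rw [if_pos hc, if_pos (by omega)]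
      exact h4 a b hc
    · rw [if_neg hc, if_neg (by omega)]

/-- the labels can be read from the bits -/
def LL (A : RTTA S) (β : ℕ → ℕ → Bool) (D : ℕ) : Prop :=
  ∀ i j i' j' : ℕ, (∀ a b, a + b ≤ D → β (i + a) (j + b) = β (i' + a) (j' + b)) →
    ∀ a b, a + b ≤ D → A.T (i + a) (j + b) = A.T (i' + a) (j' + b)

theorem V_succ (hLL : LL A β D) {w w' : List S} {k i j k' i' j' : ℕ}
    (hb : β i j = β i' j') (e1 : V A β D w k i (j + 1) = V A β D w' k' i' (j' + 1))
    (e2 : V A β D w k (i + 1) j = V A β D w' k' (i' + 1) j') :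
    V A β D w (k + 1) i j = V A β D w' (k' + 1) i' j' := by
  obtain ⟨p1, p2, p3, p4⟩ := V_eq e1
  obtain ⟨q1, q2, q3, q4⟩ := V_eq e2
  have hbits : ∀ a b, a + b ≤ min (k + 1) D → β (i + a) (j + b) = β (i' + a) (j' + b) := by
    intro a b hab
    rcases Nat.eq_zero_or_pos a with rfl | ha
    · rcases Nat.eq_zero_or_pos b with rfl | hb'
      · simpa using hb
      · have := p4 0 (b - 1) (by omega)
        rwa [show j + 1 + (b - 1) = j + b by omega, show j' + 1 + (b - 1) = j' + b by omega] at this
    · have := q4 (a - 1) b (by omega)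
      rwa [show i + 1 + (a - 1) = i + a by omega, show i' + 1 + (a - 1) = i' + a by omega] at this
  have hlet : k < D → ∀ t ≤ k + 1, w[i + t]? = w'[i' + t]? := by
    intro hk t ht
    rcases Nat.eq_zero_or_pos t with rfl | ht'
    · exact p2 hk 0 (by omega)
    · have := q2 hk (t - 1) (by omega)
      rwa [show i + 1 + (t - 1) = i + t by omega, show i' + 1 + (t - 1) = i' + t by omega] at this
  refine V_mk (by omega) (fun hD t ht => hlet (by omega) t ht) ?_ hbits
  intro hD
  have hT := hLL i j i' j' (fun a b hab => hbits a b (by omega))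
  rcases Nat.lt_or_ge k D with hk | hk
  · have hkk : k' = k := by omega
    subst hkk
    exact out_congr A _ _ _ _ _ (hlet hk) (fun a b hab => hT a b (by omega))
  · have hT0 := hT 0 0 (by omega)
    simp only [Nat.add_zero] at hT0
    simp only [RTTA.out]
    rw [hT0, p3 hk, q3 hk]

/-- the inputs of the node `(i,j)` of the simulating automaton -/
noncomputable def XY (A : RTTA S) (β : ℕ → ℕ → Bool) (D : ℕ) (w : List S) :
    ℕ → ℕ → ℕ → Option (S ⊕ St A D) × Option (S ⊕ St A D)
  | 0, i, _ => (none, (w[i]?).map Sum.inl)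
  | h + 1, i, j => (some (Sum.inr (V A β D w h i (j + 1))), some (Sum.inr (V A β D w h (i + 1) j)))

theorem V_of_XY (hD : 1 ≤ D) (hLL : LL A β D) {w w' : List S} {h i j h' i' j' : ℕ}
    (hb : β i j = β i' j') (e : XY A β D w h i j = XY A β D w' h' i' j') :
    V A β D w h i j = V A β D w' h' i' j' := by
  rcases h with - | k
  · rcases h' with - | k'
    · simp only [XY, Prod.mk.injEq, true_and] at e
      have e' : w[i]? = w'[i']? := Option.map_injective Sum.inl_injective e
      refine V_mk rfl ?_ (fun h => by omega) ?_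
      · intro _ t ht
        have ht0 : t = 0 := by omega
        subst ht0
        simpa using e'
      · intro a b hab
        have ha : a = 0 := by omega
        have hb' : b = 0 := by omega
        subst ha hb'
        simpa using hb
    · simp [XY] at e
  · rcases h' with - | k'
    · simp [XY] at e
    · simp only [XY, Prod.mk.injEq, Option.some.injEq, Sum.inr.injEq] at e
      exact V_succ hLL hb e.1 e.2

open Classical in
/-- the two functions of the simulating automaton -/
noncomputable def G (A : RTTA S) (β : ℕ → ℕ → Bool) (D : ℕ) (bit : Bool)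
    (x y : Option (S ⊕ St A D)) : S ⊕ St A D :=
  if hx : ∃ c : List S × ℕ × ℕ × ℕ, β c.2.2.1 c.2.2.2 = bit ∧
      XY A β D c.1 c.2.1 c.2.2.1 c.2.2.2 = (x, y) then
    Sum.inr (V A β D hx.choose.1 hx.choose.2.1 hx.choose.2.2.1 hx.choose.2.2.2)
  else Sum.inr (V A β D [] 0 0 0)

theorem G_eq (hD : 1 ≤ D) (hLL : LL A β D) (w : List S) (h i j : ℕ) :
    G A β D (β i j) (XY A β D w h i j).1 (XY A β D w h i j).2 = Sum.inr (V A β D w h i j) := by
  have hx : ∃ c : List S × ℕ × ℕ × ℕ, β c.2.2.1 c.2.2.2 = β i j ∧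
      XY A β D c.1 c.2.1 c.2.2.1 c.2.2.2 = ((XY A β D w h i j).1, (XY A β D w h i j).2) :=
    ⟨(w, h, i, j), rfl, rfl⟩
  unfold G
  rw [dif_pos hx]
  congr 1
  exact V_of_XY hD hLL hx.choose_spec.1 hx.choose_spec.2

/-- the simulating automaton -/
noncomputable def Bt [Finite S] (A : RTTA S) (β : ℕ → ℕ → Bool) (D : ℕ) {E : Type} [Finite E]
    (T' : ℕ → ℕ → E) (bt : E → Bool) : RTTA S where
  Γ := S ⊕ St A D
  finΓ := by
    have := A.finΓ
    infer_instance
  inp := Sum.inl
  inp_inj := Sum.inl_injective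
  acc := {x | ∃ w ∈ A.lang, x = Sum.inr (V A β D w (w.length - 1) 0 0)}
  Δ := E
  finΔ := inferInstance
  T := T'
  g := fun δ => G A β D (bt δ)

theorem Bt_out [Finite S] (hD : 1 ≤ D) (hLL : LL A β D) {E : Type} [Finite E]
    (T' : ℕ → ℕ → E) (bt : E → Bool) (hbt : ∀ i j, bt (T' i j) = β i j) (w : List S) :
    ∀ h i j, (Bt A β D T' bt).out w h i j = Sum.inr (V A β D w h i j) := by
  intro h
  induction h with
  | zero =>
    intro i j
    have := G_eq hD hLL w 0 i j
    rw [← this]
    show G A β D (bt (T' i j)) none ((w[i]?).map Sum.inl) = _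
    rw [hbt]
    rfl
  | succ h ih =>
    intro i j
    have := G_eq hD hLL w (h + 1) i j
    rw [← this]
    show G A β D (bt (T' i j)) (some ((Bt A β D T' bt).out w h i (j + 1)))
      (some ((Bt A β D T' bt).out w h (i + 1) j)) = _
    rw [hbt, ih, ih]
    rfl

theorem Bt_lang [Finite S] (hD : 1 ≤ D) (hLL : LL A β D) {E : Type} [Finite E]
    (T' : ℕ → ℕ → E) (bt : E → Bool) (hbt : ∀ i j, bt (T' i j) = β i j) :
    (Bt A β D T' bt).lang = A.lang := by
  ext w
  constructor
  · rintro ⟨hw, h⟩
    rw [Bt_out hD hLL T' bt hbt] at h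
    obtain ⟨w', hw', e⟩ := h
    obtain ⟨e1, e2, e3, -⟩ := V_eq (Sum.inr_injective e)
    refine ⟨hw, ?_⟩
    obtain ⟨hw0', hacc⟩ := hw'
    have hl : 0 < w.length := List.length_pos_of_ne_nil hw
    have hl' : 0 < w'.length := List.length_pos_of_ne_nil hw0'
    rcases Nat.lt_or_ge (w.length - 1) D with hc | hc
    · have hlen : w.length = w'.length := by omega
      have : w = w' := by
        apply List.ext_getElem? 
        intro t
        rcases Nat.lt_or_ge t w.length with ht | ht
        · have := e2 hc t (by omega)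
          simpa using this
        · rw [List.getElem?_eq_none ht, List.getElem?_eq_none (by omega)]
      rw [this]
      exact hacc
    · rw [e3 hc]
      exact hacc
  · intro hw
    refine ⟨hw.1, ?_⟩
    rw [Bt_out hD hLL T' bt hbt]
    exact ⟨w, hw, rfl⟩

theorem range_two {E X : Type} (F : Bool → X) (bt : E → Bool) :
    (Set.range (fun δ => F (bt δ))).ncard ≤ 2 := by
  have hsub : Set.range (fun δ => F (bt δ)) ⊆ {F true, F false} := by
    rintro x ⟨δ, rfl⟩
    show F (bt δ) ∈ _
    cases bt δ
    · right; rfl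
    · left; rfl
  refine (Set.ncard_le_ncard hsub ((Set.finite_singleton _).insert _)).trans ?_
  refine (Set.ncard_insert_le _ _).trans ?_
  rw [Set.ncard_singleton]

theorem Bt_types [Finite S] {E : Type} [Finite E] (T' : ℕ → ℕ → E) (bt : E → Bool) :
    (Bt A β D T' bt).types ≤ 2 := range_two (G A β D) bt

end Pool.Agent.V11233.MT
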