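import Pool.Agent.V11233.MT.Blk
import Pool.Agent.V11233.MT.Sim

set_option autoImplicit false

namespace Pool.Agent.V11233.MT

variable {Δ : Type}

/-- the labelling shifted by one, with a border -/
def Tp (T : ℕ → ℕ → Δ) (i j : ℕ) : Option Δ :=
  if i = 0 ∨ j = 0 then none else some (T (i - 1) (j - 1))

theorem Tp_rec {T : ℕ → ℕ → Δ} {P Q : ℕ} {m : Δ → ℕ → ℕ → Δ} (hP : 0 < P) (hQ : 0 < Q)
    (hT : ∀ i j, T i j = m (T (i / P) (j / Q)) (i % P) (j % Q)) (u v : ℕ) :
    Tp T u v = (Tp T ((u + P - 1) / P) ((v + Q - 1) / Q)).map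
      (fun δ => m δ ((u + P - 1) % P) ((v + Q - 1) % Q)) := by
  rcases Nat.eq_zero_or_pos u with rfl | hu
  · have : (0 + P - 1) / P = 0 := Nat.div_eq_of_lt (by omega)
    unfold Tp
    rw [this, if_pos (Or.inl rfl), if_pos (Or.inl rfl)]
    rfl
  rcases Nat.eq_zero_or_pos v with rfl | hv
  · have : (0 + Q - 1) / Q = 0 := Nat.div_eq_of_lt (by omega)
    unfold Tp
    rw [this, if_pos (Or.inr rfl), if_pos (Or.inr rfl)]
    rfl
  have e1 : u + P - 1 = (u - 1) + P := by omega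
  have e2 : v + Q - 1 = (v - 1) + Q := by omega
  have e3 : (u + P - 1) / P = (u - 1) / P + 1 := by rw [e1, Nat.add_div_right _ hP]
  have e4 : (v + Q - 1) / Q = (v - 1) / Q + 1 := by rw [e2, Nat.add_div_right _ hQ]
  have e5 : (u + P - 1) % P = (u - 1) % P := by rw [e1, Nat.add_mod_right]
  have e6 : (v + Q - 1) % Q = (v - 1) % Q := by rw [e2, Nat.add_mod_right]
  rw [e3, e4, e5, e6]
  have h0 : ¬ (u = 0 ∨ v = 0) := by omega
  have h1 : ¬ ((u - 1) / P + 1 = 0 ∨ (v - 1) / Q + 1 = 0) := by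
    rintro (h | h) <;> exact Nat.succ_ne_zero _ h
  unfold Tp
  rw [if_neg h0, if_neg h1]
  simp only [Option.map_some, Nat.add_sub_cancel]
  rw [hT]

/-- patterns -/
abbrev Pat (Δ : Type) (R R' : ℕ) : Type := Fin (R + 1) → Fin (R' + 1) → Option Δ

/-- the pattern at `(I, J)` -/
def NN (T : ℕ → ℕ → Δ) (R R' I J : ℕ) : Pat Δ R R' := fun x y => Tp T (I + x) (J + y)

/-- an entry of a pattern -/
def ent {R R' : ℕ} (n : Pat Δ R R') (x y : ℕ) : Option Δ :=
  if h : x < R + 1 ∧ y < R' + 1 then n ⟨x, h.1⟩ ⟨y, h.2⟩ else none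

theorem ent_NN {T : ℕ → ℕ → Δ} {R R' I J x y : ℕ} (hx : x ≤ R) (hy : y ≤ R') :
    ent (NN T R R' I J) x y = Tp T (I + x) (J + y) := by
  unfold ent
  rw [dif_pos ⟨by omega, by omega⟩]
  rfl

/-- the bit of a block with pattern `n` -/
def bitf {R R' P Q : ℕ} (code : Pat Δ R R' → Fin (P - 2) → Fin (Q / 2) → Bool) (n : Pat Δ R R')
    (a b : ℕ) : Bool :=
  if a = 0 then true else if a = 1 then decide (b = 1) else
    if h : b % 2 = 1 ∧ a - 2 < P - 2 ∧ b / 2 < Q / 2 then code n ⟨a - 2, h.2.1⟩ ⟨b / 2, h.2.2⟩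
    else false

/-- the bit of a node -/
def bt {R R' P Q : ℕ} (T : ℕ → ℕ → Δ) (code : Pat Δ R R' → Fin (P - 2) → Fin (Q / 2) → Bool)
    (i j : ℕ) : Bool :=
  bitf code (NN T R R' (i / P) (j / Q)) (i % P) (j % Q)

section

variable {R R' P Q : ℕ} {T : ℕ → ℕ → Δ} {code : Pat Δ R R' → Fin (P - 2) → Fin (Q / 2) → Bool}

theorem bt_zero {i j : ℕ} (h : i % P = 0) : bt T code i j = true := by
  unfold bt bitf
  rw [if_pos h]

theorem bt_one {i j : ℕ} (h : i % P = 1) : bt T code i j = decide (j % Q = 1) := by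
  unfold bt bitf
  rw [if_neg (by omega), if_pos h]

theorem bt_two {i j : ℕ} (hQ : 4 ≤ Q) (h : i % P ≠ 0) (h1 : bt T code i j = true)
    (h2 : bt T code i (j + 1) = true) : False := by
  have hlt : j % Q < Q := Nat.mod_lt _ (by omega)
  have hstep : (j + 1) % Q = if j % Q + 1 = Q then 0 else j % Q + 1 := by
    rw [Nat.add_mod, Nat.mod_eq_of_lt (by omega : 1 < Q)]
    split_ifs with hc
    · rw [hc, Nat.mod_self]
    · exact Nat.mod_eq_of_lt (by omega)
  by_cases hi : i % P = 1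
  · rw [bt_one hi, decide_eq_true_eq] at h1 h2
    rw [hstep] at h2
    split_ifs at h2 with hc
    omega
  · unfold bt bitf at h1 h2
    rw [if_neg h, if_neg hi] at h1 h2
    split_ifs at h1 with hc1
    split_ifs at h2 with hc2
    have e1 := hc1.1
    have e2 := hc2.1
    rw [hstep] at e2
    split_ifs at e2 with hc
    omega

theorem ex_shift {Q : ℕ} (j c : ℕ) (hc : c < Q) : ∃ b < Q, (j + b) % Q = c := by
  have hlt : j % Q < Q := Nat.mod_lt _ (by omega)
  refine ⟨(c + (Q - j % Q)) % Q, Nat.mod_lt _ (by omega), ?_⟩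
  rw [Nat.add_mod_mod]
  have h1 : j + (c + (Q - j % Q)) = c + Q * (j / Q + 1) := by
    have := Nat.div_add_mod j Q
    rw [mul_add, mul_one]
    omega
  rw [h1, Nat.add_mul_mod_self_left, Nat.mod_eq_of_lt hc]

theorem mod_eq_of_shift {Q j j' b : ℕ} (h : (j + b) % Q = (j' + b) % Q) : j % Q = j' % Q :=
  Nat.ModEq.add_right_cancel' b h

theorem shift_mod {Q j j' : ℕ} (h : j % Q = j' % Q) (b : ℕ) : (j + b) % Q = (j' + b) % Q :=
  Nat.ModEq.add_right b h

theorem LL_bt {m : Δ → ℕ → ℕ → Δ} {D : ℕ} (hP : 4 ≤ P) (hQ : 4 ≤ Q) (hD : D = 2 * (P + Q))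
    (hR : D / P + 1 ≤ R) (hR' : D / Q + 1 ≤ R') (hcode : Function.Injective code)
    (hT : ∀ i j, T i j = m (T (i / P) (j / Q)) (i % P) (j % Q)) (i j i' j' : ℕ)
    (hb : ∀ a b, a + b ≤ D → bt T code (i + a) (j + b) = bt T code (i' + a) (j' + b)) :
    ∀ a b, a + b ≤ D → T (i + a) (j + b) = T (i' + a) (j' + b) := by
  -- the residue of `i`
  obtain ⟨a0, ha0, ha0'⟩ := ex_shift (Q := P) i 0 (by omega)
  have ha0'' : (i' + a0) % P = 0 := by
    by_contra hne
    have e1 := hb a0 0 (by omega)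
    have e2 := hb a0 1 (by omega)
    rw [bt_zero ha0'] at e1 e2
    rw [Nat.add_zero] at e1
    exact bt_two hQ hne e1.symm e2.symm
  have hii : i % P = i' % P := mod_eq_of_shift (ha0'.trans ha0''.symm)
  -- the residue of `j`
  obtain ⟨a1, ha1, ha1'⟩ := ex_shift (Q := P) i 1 (by omega)
  have ha1'' : (i' + a1) % P = 1 := by rw [← shift_mod hii, ha1']
  obtain ⟨b1, hb1, hb1'⟩ := ex_shift (Q := Q) j 1 (by omega)
  have hb1'' : (j' + b1) % Q = 1 := by
    have e1 := hb a1 b1 (by omega)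
    rw [bt_one ha1', bt_one ha1'', hb1'] at e1
    simpa using e1.symm
  have hjj : j % Q = j' % Q := mod_eq_of_shift (hb1'.trans hb1''.symm)
  obtain ⟨b0, hb0, hb0'⟩ := ex_shift (Q := Q) j 0 (by omega)
  have hb0'' : (j' + b0) % Q = 0 := by rw [← shift_mod hjj, hb0']
  -- the complete block
  obtain ⟨I, hI⟩ : ∃ I, i + a0 = P * I := Nat.dvd_of_mod_eq_zero ha0'
  obtain ⟨I', hI'⟩ : ∃ I', i' + a0 = P * I' := Nat.dvd_of_mod_eq_zero ha0''
  obtain ⟨J, hJ⟩ : ∃ J, j + b0 = Q * J := Nat.dvd_of_mod_eq_zero hb0'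
  obtain ⟨J', hJ'⟩ : ∃ J', j' + b0 = Q * J' := Nat.dvd_of_mod_eq_zero hb0''
  have hblk : ∀ (I J x y : ℕ), x < P → y < Q →
      bt T code (P * I + x) (Q * J + y) = bitf code (NN T R R' I J) x y := by
    intro I J x y hx hy
    unfold bt
    rw [Nat.mul_add_div (by omega), Nat.mul_add_div (by omega), Nat.div_eq_of_lt hx,
      Nat.div_eq_of_lt hy, Nat.mul_add_mod, Nat.mul_add_mod, Nat.mod_eq_of_lt hx,
      Nat.mod_eq_of_lt hy, Nat.add_zero, Nat.add_zero]
  have hN : NN T R R' I J = NN T R R' I' J' := by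
    apply hcode
    funext x y
    have e := hb (a0 + (x + 2)) (b0 + (2 * y + 1)) (by have := x.2; have := y.2; omega)
    rw [show i + (a0 + ((x : ℕ) + 2)) = P * I + (x + 2) by omega,
      show i' + (a0 + ((x : ℕ) + 2)) = P * I' + (x + 2) by omega,
      show j + (b0 + (2 * (y : ℕ) + 1)) = Q * J + (2 * y + 1) by omega,
      show j' + (b0 + (2 * (y : ℕ) + 1)) = Q * J' + (2 * y + 1) by omega,
      hblk _ _ _ _ (by have := x.2; omega) (by have := y.2; omega),
      hblk _ _ _ _ (by have := x.2; omega) (by have := y.2; omega)] at e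
    unfold bitf at e
    have hx := x.2
    have hy := y.2
    have hc : (2 * (y : ℕ) + 1) % 2 = 1 ∧ (x : ℕ) + 2 - 2 < P - 2 ∧ (2 * (y : ℕ) + 1) / 2 < Q / 2 := by
      refine ⟨by omega, by omega, by omega⟩
    rw [if_neg (by omega), if_neg (by omega), dif_pos hc, if_neg (by omega), if_neg (by omega),
      dif_pos hc] at e
    have hx' : (⟨(x : ℕ) + 2 - 2, hc.2.1⟩ : Fin (P - 2)) = x := by
      apply Fin.ext
      simp
    have hy' : (⟨(2 * (y : ℕ) + 1) / 2, hc.2.2⟩ : Fin (Q / 2)) = y := by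
      apply Fin.ext
      simp only
      omega
    rw [hx', hy'] at e
    exact e
  intro a b hab
  rw [hT (i + a) (j + b), hT (i' + a) (j' + b), shift_mod hii a, shift_mod hjj b]
  have hX : ∀ (i I : ℕ), i + a0 = P * I → (i + a) / P + 1 = I + (a + P - a0) / P := by
    intro i I hI
    rw [← Nat.add_div_right _ (by omega : 0 < P), show i + a + P = P * I + (a + P - a0) by omega,
      Nat.mul_add_div (by omega)]
  have hY : ∀ (j J : ℕ), j + b0 = Q * J → (j + b) / Q + 1 = J + (b + Q - b0) / Q := by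
    intro j J hJ
    rw [← Nat.add_div_right _ (by omega : 0 < Q), show j + b + Q = Q * J + (b + Q - b0) by omega,
      Nat.mul_add_div (by omega)]
  have hx : (a + P - a0) / P ≤ R := by
    refine le_trans ?_ hR
    rw [← Nat.add_div_right _ (by omega : 0 < P)]
    exact Nat.div_le_div_right (by omega)
  have hy : (b + Q - b0) / Q ≤ R' := by
    refine le_trans ?_ hR'
    rw [← Nat.add_div_right _ (by omega : 0 < Q)]
    exact Nat.div_le_div_right (by omega)
  have e1 : ent (NN T R R' I J) ((a + P - a0) / P) ((b + Q - b0) / Q) =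
      some (T ((i + a) / P) ((j + b) / Q)) := by
    rw [ent_NN hx hy, ← hX i I hI, ← hY j J hJ]
    unfold Tp
    rw [if_neg (by rintro (h | h) <;> exact Nat.succ_ne_zero _ h)]
    simp
  have e2 : ent (NN T R R' I' J') ((a + P - a0) / P) ((b + Q - b0) / Q) =
      some (T ((i' + a) / P) ((j' + b) / Q)) := by
    rw [ent_NN hx hy, ← hX i' I' hI', ← hY j' J' hJ']
    unfold Tp
    rw [if_neg (by rintro (h | h) <;> exact Nat.succ_ne_zero _ h)]
    simp
  rw [hN, e2] at e1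
  rw [Option.some.inj e1]

/-- the labelling of the simulating automaton -/
def T2 (T : ℕ → ℕ → Δ) (code : Pat Δ R R' → Fin (P - 2) → Fin (Q / 2) → Bool) (i j : ℕ) :
    Pat Δ R R' × Bool := (NN T R R' i j, bt T code i j)

/-- the arrays of the simulating automaton -/
def M2 (m : Δ → ℕ → ℕ → Δ) (code : Pat Δ R R' → Fin (P - 2) → Fin (Q / 2) → Bool)
    (d : Pat Δ R R' × Bool) (a b : ℕ) : Pat Δ R R' × Bool :=
  (fun x y => (ent d.1 ((a + x + P - 1) / P) ((b + y + Q - 1) / Q)).map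
      (fun δ => m δ ((a + x + P - 1) % P) ((b + y + Q - 1) % Q)), bitf code d.1 a b)

theorem div_le_aux {P R a x : ℕ} (hP : 2 ≤ P) (hR : 2 ≤ R) (ha : a < P) (hx : x ≤ R) :
    (a + x + P - 1) / P ≤ R := by
  rw [← Nat.lt_succ_iff, Nat.div_lt_iff_lt_mul (by omega)]
  obtain ⟨p, rfl⟩ : ∃ p, P = p + 2 := ⟨P - 2, by omega⟩
  obtain ⟨r, rfl⟩ : ∃ r, R = r + 2 := ⟨R - 2, by omega⟩
  have : (r + 2).succ * (p + 2) = r * p + 2 * r + 3 * p + 6 := by
    rw [Nat.succ_eq_add_one]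
    ring
  rw [this]
  have := Nat.zero_le (r * p)
  omega

theorem T2_rec {m : Δ → ℕ → ℕ → Δ} (hP : 2 ≤ P) (hQ : 2 ≤ Q) (hR : 2 ≤ R) (hR' : 2 ≤ R')
    (hT : ∀ i j, T i j = m (T (i / P) (j / Q)) (i % P) (j % Q)) (i j : ℕ) :
    T2 T code i j = M2 m code (T2 T code (i / P) (j / Q)) (i % P) (j % Q) := by
  unfold T2 M2
  refine Prod.ext ?_ rfl
  funext x y
  have ha : i % P < P := Nat.mod_lt _ (by omega)
  have hb : j % Q < Q := Nat.mod_lt _ (by omega)
  have hx : (i % P + x + P - 1) / P ≤ R := div_le_aux hP hR ha (by have := x.2; omega)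
  have hy : (j % Q + y + Q - 1) / Q ≤ R' := div_le_aux hQ hR' hb (by have := y.2; omega)
  simp only
  rw [ent_NN hx hy]
  show Tp T (i + x) (j + y) = _
  rw [Tp_rec (by omega) (by omega) hT]
  have e1 : i + x + P - 1 = P * (i / P) + (i % P + x + P - 1) := by
    have := Nat.div_add_mod i P
    omega
  have e2 : j + y + Q - 1 = Q * (j / Q) + (j % Q + y + Q - 1) := by
    have := Nat.div_add_mod j Q
    omega
  rw [e1, e2, Nat.mul_add_div (by omega), Nat.mul_add_div (by omega), Nat.mul_add_mod,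
    Nat.mul_add_mod]

end

end Pool.Agent.V11233.MT
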