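import Mathlib

/-!
Modular real-time systolic trellis automata.
-/

set_option autoImplicit false

namespace Pool.Agent.V11233.MT

/-- A real-time trellis automaton over the input alphabet `S`: the finite alphabet `Γ` contains the
input alphabet (through `inp`), `acc` is the set `Γ₀`, `T` is the labelling of the nodes by the
finite set `Δ`, and `g δ` is the function applied by the nodes with label `δ`; the symbol `λ` is
`none`. -/
structure RTTA (S : Type) where
  Γ : Type
  finΓ : Finite Γ
  inp : S → Γ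
  inp_inj : Function.Injective inp
  acc : Set Γ
  Δ : Type
  finΔ : Finite Δ
  T : ℕ → ℕ → Δ
  g : Δ → Option Γ → Option Γ → Γ

/-- `A.out w h i j` is the output of the node `(i,j)` on the input `w = a_1 ... a_n`, where
`h = n - 1 - (i + j)` is the number of levels between the node and the level `n - 1`. The node
`(i,j)` with `h = 0` has the inputs `λ` and `a_{i+1}` (`w[i]?`, as the list is indexed from `0`);
for `h > 0` its left input comes from `(i,j+1)` and its right input from `(i+1,j)`. -/
def RTTA.out {S : Type} (A : RTTA S) (w : List S) : ℕ → ℕ → ℕ → A.Γ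
  | 0, i, j => A.g (A.T i j) none ((w[i]?).map A.inp)
  | h + 1, i, j => A.g (A.T i j) (some (A.out w h i (j + 1))) (some (A.out w h (i + 1) j))

/-- The accepted language: the output at `(0,0)` lies in `Γ₀`. -/
def RTTA.lang {S : Type} (A : RTTA S) : Set (List S) :=
  {w | w ≠ [] ∧ A.out w (w.length - 1) 0 0 ∈ A.acc}

/-- The number of types of processors. -/
noncomputable def RTTA.types {S : Type} (A : RTTA S) : ℕ := (Set.range A.g).ncard

/-- The arrays `M^k_δ` of size `p^k × q^k`, obtained from the `p × q` arrays `M_δ`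
(only the entries `M δ a b` with `a < p`, `b < q` are used): the entry `(i,j)` of `M^(k+1)_δ` lies in
the block `M^k_ε` where `ε = M δ (i / p^k) (j / q^k)`. -/
def blk {Δ : Type} (p q : ℕ) (M : Δ → ℕ → ℕ → Δ) : ℕ → Δ → ℕ → ℕ → Δ
  | 0, δ, _, _ => δ
  | k + 1, δ, i, j => blk p q M k (M δ (i / p ^ k) (j / q ^ k)) (i % p ^ k) (j % q ^ k)

/-- `A` is modular. -/
def RTTA.Modular {S : Type} (A : RTTA S) : Prop :=
  ∃ (p q : ℕ) (δ₀ : A.Δ) (M : A.Δ → ℕ → ℕ → A.Δ), 2 ≤ p ∧ 2 ≤ q ∧ M δ₀ 0 0 = δ₀ ∧
    ∀ i j : ℕ, ∃ K : ℕ, ∀ k : ℕ, K ≤ k →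
      i < p ^ k ∧ j < q ^ k ∧ A.T i j = blk p q M k δ₀ i j

end Pool.Agent.V11233.MT
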