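import Pool.Agent.V11233.MT.Code

set_option autoImplicit false

namespace Pool.Agent.V11233.MT

theorem cap_real {P Q s x y h : ℝ} (hs : 0 ≤ s) (hP : 4 ≤ P) (hQ : 4 ≤ Q)
    (h1 : 192 * s ≤ P * Q) (h2 : 192 * s ≤ P * P) (h3 : 192 * s ≤ Q * Q)
    (hy0 : 0 ≤ y)
    (hx : x ≤ 2 + 2 * Q / P) (hy : y ≤ 2 + 2 * P / Q) (hh : 3 / 8 * Q ≤ h) :
    s * ((x + 2) * (y + 2)) ≤ (P - 2) * h := by
  have hP0 : 0 < P := by linarith
  have hQ0 : 0 < Q := by linarith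
  have a1 : (x + 2) * (y + 2) ≤ (4 + 2 * Q / P) * (4 + 2 * P / Q) := by
    apply mul_le_mul (by linarith) (by linarith) (by linarith)
    have : 0 ≤ 2 * Q / P := by positivity
    linarith
  have a2 : s * ((x + 2) * (y + 2)) ≤ s * ((4 + 2 * Q / P) * (4 + 2 * P / Q)) :=
    mul_le_mul_of_nonneg_left a1 hs
  have a3 : s * ((4 + 2 * Q / P) * (4 + 2 * P / Q)) =
      (s * (20 * (P * Q) + 8 * (Q * Q) + 8 * (P * P))) / (P * Q) := by
    field_simp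
    ring
  have a4 : (s * (20 * (P * Q) + 8 * (Q * Q) + 8 * (P * P))) / (P * Q) ≤ 3 / 16 * (P * Q) := by
    rw [div_le_iff₀ (by positivity)]
    have b1 := mul_le_mul_of_nonneg_right h1 (by positivity : (0 : ℝ) ≤ P * Q)
    have b2 := mul_le_mul_of_nonneg_right h2 (by positivity : (0 : ℝ) ≤ Q * Q)
    have b3 := mul_le_mul_of_nonneg_right h3 (by positivity : (0 : ℝ) ≤ P * P)
    nlinarith [b1, b2, b3]
  have a5 : 3 / 16 * (P * Q) ≤ (P - 2) * h := by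
    have : P / 2 * (3 / 8 * Q) ≤ (P - 2) * h :=
      mul_le_mul (by linarith) hh (by positivity) (by linarith)
    linarith
  linarith

theorem cap (p q s : ℕ) (hp : 2 ≤ p) (hq : 2 ≤ q) : ∃ K : ℕ, 4 ≤ p ^ K ∧ 4 ≤ q ^ K ∧
    s * ((2 * (p ^ K + q ^ K) / p ^ K + 1 + 1) * (2 * (p ^ K + q ^ K) / q ^ K + 1 + 1)) ≤
      (p ^ K - 2) * (q ^ K / 2) := by
  obtain ⟨K, hK⟩ : ∃ K, K = 192 * s + 2 := ⟨_, rfl⟩
  have t1 : 2 ^ K ≤ p ^ K := Nat.pow_le_pow_left hp K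
  have t2 : 2 ^ K ≤ q ^ K := Nat.pow_le_pow_left hq K
  have t3 : K < 2 ^ K := Nat.lt_two_pow_self
  have t4 : 4 ≤ 2 ^ K := by
    have : 2 ^ 2 ≤ 2 ^ K := Nat.pow_le_pow_right (by norm_num) (by omega)
    simpa using this
  have t5 : 192 * s ≤ 2 ^ K := by omega
  refine ⟨K, by omega, by omega, ?_⟩
  obtain ⟨P, hP⟩ : ∃ P, P = p ^ K := ⟨_, rfl⟩
  obtain ⟨Q, hQ⟩ : ∃ Q, Q = q ^ K := ⟨_, rfl⟩
  rw [← hP, ← hQ]
  rw [← hP] at t1
  rw [← hQ] at t2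
  have hP4 : 4 ≤ P := by omega
  have hQ4 : 4 ≤ Q := by omega
  have hsP : 192 * s ≤ P := by omega
  have hsQ : 192 * s ≤ Q := by omega
  have hP4' : (4 : ℝ) ≤ P := by exact_mod_cast hP4
  have hQ4' : (4 : ℝ) ≤ Q := by exact_mod_cast hQ4
  have hsP' : (192 * s : ℝ) ≤ P := by exact_mod_cast hsP
  have hsQ' : (192 * s : ℝ) ≤ Q := by exact_mod_cast hsQ
  have hs0 : (0 : ℝ) ≤ s := Nat.cast_nonneg s
  have key := cap_real (P := P) (Q := Q) (s := s) (x := ((2 * (P + Q) / P : ℕ) : ℝ))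
    (y := ((2 * (P + Q) / Q : ℕ) : ℝ)) (h := ((Q / 2 : ℕ) : ℝ)) hs0 hP4' hQ4'
    (by nlinarith) (by nlinarith) (by nlinarith) (Nat.cast_nonneg _)
    (by
      have := Nat.cast_div_le (α := ℝ) (m := 2 * (P + Q)) (n := P)
      have e : ((2 * (P + Q) : ℕ) : ℝ) / (P : ℝ) = 2 + 2 * Q / P := by
        push_cast
        field_simp
      rw [← e]
      exact this)
    (by
      have := Nat.cast_div_le (α := ℝ) (m := 2 * (P + Q)) (n := Q)
      have e : ((2 * (P + Q) : ℕ) : ℝ) / (Q : ℝ) = 2 + 2 * P / Q := by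
        push_cast
        field_simp
        ring
      rw [← e]
      exact this)
    (by
      have h1 : Q ≤ 2 * (Q / 2) + 1 := by omega
      have h2 : (Q : ℝ) ≤ 2 * ((Q / 2 : ℕ) : ℝ) + 1 := by exact_mod_cast h1
      linarith)
  have e1 : ((P - 2 : ℕ) : ℝ) = (P : ℝ) - 2 := by
    rw [Nat.cast_sub (by omega)]
    norm_num
  rw [← e1] at key
  have key' : ((s * ((2 * (P + Q) / P + 2) * (2 * (P + Q) / Q + 2)) : ℕ) : ℝ) ≤
      (((P - 2) * (Q / 2) : ℕ) : ℝ) := by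
    push_cast
    exact key
  exact_mod_cast key'

theorem main {S : Type} [Finite S] (A : RTTA S) (hA : A.Modular) :
    ∃ B : RTTA S, B.Modular ∧ B.lang = A.lang ∧ B.types ≤ 2 := by
  classical
  obtain ⟨p, q, δ₀, M, hp, hq, -, hM⟩ := hA
  have := A.finΔ
  have := Fintype.ofFinite A.Δ
  obtain ⟨K, h4, h4', hcap⟩ := cap p q (Fintype.card (Option A.Δ)) hp hq
  have hT : ∀ i j, A.T i j = blk p q M K (A.T (i / p ^ K) (j / q ^ K)) (i % p ^ K) (j % q ^ K) :=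
    rec_of_modular hM K
  obtain ⟨m, hm⟩ : ∃ m : A.Δ → ℕ → ℕ → A.Δ, m = blk p q M K := ⟨_, rfl⟩
  rw [← hm] at hT
  obtain ⟨P, hP⟩ : ∃ P, P = p ^ K := ⟨_, rfl⟩
  obtain ⟨Q, hQ⟩ : ∃ Q, Q = q ^ K := ⟨_, rfl⟩
  rw [← hP, ← hQ] at hT hcap
  rw [← hP] at h4
  rw [← hQ] at h4'
  obtain ⟨D, hD⟩ : ∃ D, D = 2 * (P + Q) := ⟨_, rfl⟩
  rw [← hD] at hcap
  obtain ⟨R, hR⟩ : ∃ R, R = D / P + 1 := ⟨_, rfl⟩
  obtain ⟨R', hR'⟩ : ∃ R', R' = D / Q + 1 := ⟨_, rfl⟩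
  rw [← hR, ← hR'] at hcap
  have hcard : Fintype.card (Pat A.Δ R R') ≤ Fintype.card (Fin (P - 2) → Fin (Q / 2) → Bool) := by
    rw [Fintype.card_fun, Fintype.card_fun, Fintype.card_fun, Fintype.card_fun, Fintype.card_fin,
      Fintype.card_fin, Fintype.card_fin, Fintype.card_fin, Fintype.card_bool, ← pow_mul, ← pow_mul]
    calc Fintype.card (Option A.Δ) ^ ((R' + 1) * (R + 1))
        ≤ (2 ^ Fintype.card (Option A.Δ)) ^ ((R' + 1) * (R + 1)) :=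
          Nat.pow_le_pow_left Nat.lt_two_pow_self.le _
      _ = 2 ^ (Fintype.card (Option A.Δ) * ((R + 1) * (R' + 1))) := by
          rw [← pow_mul, Nat.mul_comm (R + 1)]
      _ ≤ 2 ^ ((P - 2) * (Q / 2)) := Nat.pow_le_pow_right (by norm_num) hcap
      _ = _ := by rw [Nat.mul_comm]
  obtain ⟨code⟩ := Function.Embedding.nonempty_of_card_le hcard
  have hDP : 2 ≤ D / P := by
    rw [Nat.le_div_iff_mul_le (by omega)]
    omega
  have hDQ : 2 ≤ D / Q := by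
    rw [Nat.le_div_iff_mul_le (by omega)]
    omega
  have hLL : LL A (bt A.T code) D := fun i j i' j' hb =>
    LL_bt h4 h4' hD hR.ge hR'.ge code.injective hT i j i' j' hb
  refine ⟨Bt A (bt A.T code) D (T2 A.T code) Prod.snd, ?_, ?_, ?_⟩
  · have hrec := T2_rec (code := code) (by omega : 2 ≤ P) (by omega : 2 ≤ Q) (by omega : 2 ≤ R)
      (by omega : 2 ≤ R') hT
    obtain ⟨g1, g2⟩ := modular_of_rec (by omega : 2 ≤ P) (by omega : 2 ≤ Q) hrec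
    exact ⟨P, Q, T2 A.T code 0 0, M2 m code, by omega, by omega, g1, g2⟩
  · exact Bt_lang (by omega) hLL _ _ (fun i j => rfl)
  · exact Bt_types _ _

end Pool.Agent.V11233.MT
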